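import Pool.Agent.Q225.VarA

set_option autoImplicit false

namespace Pool.Agent.Results.MP_dbf4ef_co.ZeroEta

open Pool.Agent.Q225.Variety

/-- the functional `η(G)`, the sum of the Euler characteristics of the unit spheres of the
Barycentric refinement -/
noncomputable def totalCurvature {V : Type} [Fintype V] (G : SimpleGraph V) : ℤ :=
  ∑ c ∈ vert1 G, curv G c

/-- **Answer to the question: yes.** For every `d`-variety `G`, `d ≥ 0`: `η(G) = 0` if and only if
`χ(S(x)) = 0` for all vertices `x` of the Barycentric refinement; and this holds if and only if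
`d` is even or `G` has no edges. -/
theorem result (V : Type) [Fintype V] (G : SimpleGraph V) (d : ℕ) (h : IsVariety G d) :
    (totalCurvature G = 0 ↔ ∀ c ∈ vert1 G, curv G c = 0) ∧
    (totalCurvature G = 0 ↔ (Even d ∨ ∀ x y, ¬ G.Adj x y)) := by
  classical
  have hE : (eta G : ℚ) = (totalCurvature G : ℚ) := by
    rw [eta_eq]
    unfold totalCurvature
    push_cast
    rfl
  have hE' : eta G = totalCurvature G := by exact_mod_cast hE
  have h1 : (∀ c ∈ vert1 G, curv G c = 0) → totalCurvature G = 0 := fun h0 =>
    Finset.sum_eq_zero h0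
  have h2 : totalCurvature G = 0 → (Even d ∨ ∀ x y, ¬ G.Adj x y) := by
    intro h0
    rcases Nat.even_or_odd d with hd | hd
    · exact Or.inl hd
    · right
      intro x y hxy
      have h3 := eta_odd G d hd h
      rw [hE, h0] at h3
      have hmem : ({x, y} : Finset V) ∈ (cliques G Finset.univ).filter (fun c => 2 ≤ c.card) := by
        rw [Finset.mem_filter, mem_cliques]
        refine ⟨⟨Finset.subset_univ _, ?_⟩, by rw [Finset.card_pair hxy.ne]⟩
        rw [Finset.coe_pair, SimpleGraph.isClique_pair]
        exact fun _ => hxy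
      have hpos : 0 < ∑ c ∈ (cliques G Finset.univ).filter (fun c => 2 ≤ c.card),
          (2 + 4 * (c.card : ℚ) * (-1 / 2) ^ c.card) :=
        Finset.sum_pos (fun c hc => term_pos c.card (Finset.mem_filter.mp hc).2) ⟨_, hmem⟩
      rw [← h3] at hpos
      simp at hpos
  have h3 : (Even d ∨ ∀ x y, ¬ G.Adj x y) → ∀ c ∈ vert1 G, curv G c = 0 := by
    rintro (hd | hd) c hc
    · exact curv_even G d hd h c hc
    · have hv : IsVariety G 0 := by
        refine ⟨∅, Finset.empty_subset _, by simp, ?_, by simp⟩
        intro x _ _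
        show sphere G Finset.univ x = ∅
        ext y
        rw [mem_sphere]
        simp [hd x y]
      exact curv_even G 0 (by decide) hv c hc
  exact ⟨⟨fun h0 => h3 (h2 h0), h1⟩, ⟨h2, fun h0 => h1 (h3 h0)⟩⟩

end Pool.Agent.Results.MP_dbf4ef_co.ZeroEta
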